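import Pool.Agent.Q282.UZ.Sys

/-!
# MP_e93a6a_ag: étale cohomology of cycle complexes and three-term bilinear systems

Let `R` be `ℤ` or a quotient of `ℤ` (for example `𝔽_p`), and let `A n i X = H^i(X_et, ℤ^c(n))` for
separated schemes `X` of finite type over `R`, `n ≤ 0` and `i ∈ ℤ`. The hypothesis `localization` of the
theorem, `IsLocal True (A n) (Equiv.addRight 1) (Equiv.subRight 1)`, consists of known properties:
invariance under isomorphisms, the localization sequence
`⋯ → A n i Z → A n i X → A n i U → A n (i + 1) Z → ⋯`, and `A n (i + 1) X` is a direct factor of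
`A n i (X × 𝔾_m)`.
-/

set_option autoImplicit false

open CategoryTheory AlgebraicGeometry Pool.Agent.Y116.UV Pool.Agent.Q282.UZ Pool.Agent.Q193.LT

universe w

namespace Pool.Agent.Results.MP_e93a6a_ag.ThreeTermSystems

variable {R : Type} [CommRing R]

/-- For all separated schemes `X` of finite type over `R` the groups `H^i(X_et, ℤ^c(n))` are in the
class `S` for all `i`. -/
def ForAll (A : ℤ → ℤ → Sch R → ModuleCat.{w} ℤ) (S : ModuleCat.{w} ℤ → Prop) (n : ℤ) : Prop :=
  ∀ X : Sch R, FT True X → ∀ i, S (A n i X)

/-- For all affine schemes `Y_E` over `R` given by systems of bilinear equations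
`∑_{(i, j) ∈ E_l} x_i y_j = 0`, `l = 1, …, c`, with at most three terms in every equation, the groups
`H^i(Y_et, ℤ^c(n))` are in the class `S` for all `i`. -/
def ThreeTerms (A : ℤ → ℤ → Sch R → ModuleCat.{w} ℤ) (S : ModuleCat.{w} ℤ → Prop) (n : ℤ) : Prop :=
  ∀ (a b c : ℕ) (E : Fin c → Finset (Fin a × Fin b)), (∀ l, (E l).card ≤ 3) →
    ∀ i, S (A n i (sysS R E))

/-- **Theorem.** For every weight `n ≤ 0` separately: the groups `H^i(X_et, ℤ^c(n))` are finitely generated
for all `X` and `i` (for `R = ℤ` and `n < 0` this is Q1 in the weight `n`) if and only if they are for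
the schemes given by systems of bilinear equations with at most three terms; the same is true for every
Serre class of abelian groups. -/
theorem result [IsNoetherianRing R] (hR : Function.Surjective (Int.cast : ℤ → R))
    {A : ℤ → ℤ → Sch R → ModuleCat.{w} ℤ}
    (localization : ∀ n ≤ 0, IsLocal True (A n) (Equiv.addRight 1) (Equiv.subRight 1)) :
    ∀ n ≤ 0, (ForAll A (fun M => Module.Finite ℤ M) n ↔ ThreeTerms A (fun M => Module.Finite ℤ M) n) ∧
      ∀ S : ModuleCat.{w} ℤ → Prop, IsSerre S → (ForAll A S n ↔ ThreeTerms A S n) := by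
  intro n hn
  have h : ∀ S : ModuleCat.{w} ℤ → Prop, IsSerre S → (ForAll A S n ↔ ThreeTerms A S n) :=
    fun S hS => three_iff (short_presents hR) (clo_class (localization n hn) hS)
  exact ⟨h _ serre_finite, h⟩

end Pool.Agent.Results.MP_e93a6a_ag.ThreeTermSystems
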